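import Mathlib

set_option autoImplicit false
set_option linter.unusedSimpArgs false
set_option linter.unusedVariables false

namespace Pool.Agent.Results.MP_c9c291_lc.No

open List Computability

/-- An agsm with input alphabet `X`, output alphabet `Y` and state set `Q`. -/
structure Agsm (X Y Q : Type) where
  q0 : Q
  fin : Set Q
  t : Q → X → Q
  h : Q → X → List Y

/-- The output map extended to words. -/
def Agsm.out {X Y Q : Type} (g : Agsm X Y Q) : Q → List X → List Y
  | _, [] => []
  | q, a :: w => g.h q a ++ g.out (g.t q a) w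

/-- The inverse image of `M` under the agsm `g`. -/
def Agsm.inv {X Y Q : Type} (g : Agsm X Y Q) (M : Language Y) : Language X :=
  {w | w.foldl g.t g.q0 ∈ g.fin ∧ g.out g.q0 w ∈ M}

/-- A family of languages: a set of languages over every alphabet. -/
abbrev Fam := ∀ X : Type, Set (Language X)

/-- Languages obtained from `L` by finitely many inverse agsm mappings. -/
inductive GenA {Z : Type} (L : Language Z) : ∀ X : Type, Language X → Prop
  | base : GenA L Z L
  | inv {X Y Q : Type} [Finite X] [Finite Q] (g : Agsm X Y Q) {M} : GenA L Y M → GenA L X (g.inv M)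

/-- Languages obtained from `L` by finitely many inverse homomorphisms and intersections with regular sets. -/
inductive GenC {Z : Type} (L : Language Z) : ∀ X : Type, Language X → Prop
  | base : GenC L Z L
  | hom {X Y : Type} [Finite X] (h : X → List Y) {M} : GenC L Y M → GenC L X {w | w.flatMap h ∈ M}
  | reg {X : Type} {M R : Language X} : R.IsRegular → GenC L X M → GenC L X (M ⊓ R)

def PrincA (F : Fam) : Prop :=
  (∀ (X Y Q : Type) [Finite X] [Finite Y] [Finite Q] (g : Agsm X Y Q), ∀ M ∈ F Y, g.inv M ∈ F X) ∧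
    ∃ (Z : Type) (_ : Finite Z), ∃ L ∈ F Z, ∀ X, ∀ M ∈ F X, GenA L X M

def PrincC (F : Fam) : Prop :=
  (∀ (X Y : Type) [Finite X] [Finite Y] (h : X → List Y), ∀ M ∈ F Y,
    ({w | w.flatMap h ∈ M} : Language X) ∈ F X) ∧
  (∀ (X : Type) [Finite X], ∀ M ∈ F X, ∀ R : Language X, R.IsRegular → M ⊓ R ∈ F X) ∧
    ∃ (Z : Type) (_ : Finite Z), ∃ L ∈ F Z, ∀ X, ∀ M ∈ F X, GenC L X M

/-- The alphabet `X` with three new letters `y`, `y'` (y bar) and `z`. -/
abbrev Ex (X : Type) := X ⊕ Fin 3

abbrev y {X : Type} : Ex X := .inr 0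
abbrev y' {X : Type} : Ex X := .inr 1
abbrev z {X : Type} : Ex X := .inr 2

/-- `V i w`: the variable `v_i` of the grammar generates `w`. -/
inductive V {X : Type} : Fin 4 → List (Ex X) → Prop
  | v01 {w} : V 1 w → V 0 w
  | v0e : V 0 []
  | v12 {w} : V 2 w → V 1 (y :: w ++ [y'])
  | v13 {w} : V 3 w → V 1 (w ++ [z])
  | v1z : V 1 [z]
  | v2x {w} (x) : x ≠ y' → x ≠ z → V 2 w → V 2 (w ++ [x])
  | v21 {w} : V 1 w → V 2 w
  | v3x {w} (x) : x ≠ z → V 3 w → V 3 (w ++ [x])
  | v3y : V 3 [y']

def A (X : Type) : Language (Ex X) := {w | V 0 w}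

/-- The letters of `X`. -/
def Lt (X : Type) : Language (Ex X) := {w | ∃ x : X, w = [.inl x]}

def B (X : Type) : Language (Ex X) :=
  {[y]} + ({[y']} * (Lt X)∗ * {[y]} * ({[y]} : Language (Ex X))∗)∗

/-- The language `f₁ A f₂ A ... A fₙ`. -/
def Mix {X : Type} : List X → Language (Ex X)
  | [] => 1
  | [f] => {[.inl f]}
  | f :: g :: r => {[.inl f]} * A X * Mix (g :: r)

def T {X : Type} (L : Language X) : Language (Ex X) := {w | ∃ f ∈ L, w ∈ {[z, y']} * Mix f * B X}

def ClosedT (F : Fam) : Prop := ∀ (X : Type) [Finite X], ∀ M ∈ F X, T M ∈ F (Ex X)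

/-! ### pumping an agsm -/

def rp {X : Type} (n : ℕ) (u : List X) : List X := (replicate n u).flatten

theorem rp_succ {X : Type} (n : ℕ) (u : List X) : rp (n + 1) u = u ++ rp n u := rfl

theorem rp_add {X : Type} (m n : ℕ) (u : List X) : rp (m + n) u = rp m u ++ rp n u := by
  rw [rp, replicate_add, flatten_append]; rfl

theorem rp_mul {X : Type} (K n : ℕ) (u : List X) : rp (K + K * n) u = rp K u ++ rp n (rp K u) := by
  rw [rp_add]
  induction n with
  | zero => rfl
  | succ n ih => rw [mul_add_one, add_comm (K * n), rp_add, rp_succ, append_cancel_left ih]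

theorem rp_conj {X : Type} (n : ℕ) (a b : List X) : rp (n + 1) (a ++ b) = a ++ rp n (b ++ a) ++ b := by
  induction n with
  | zero => simp [rp]
  | succ n ih => rw [rp_succ, ih, rp_succ]; simp

theorem rp_len {X : Type} (n : ℕ) (u : List X) : (rp n u).length = n * u.length := by simp [rp]

theorem rp_flat {X Y : Type} (f : X → List Y) (n : ℕ) (u : List X) :
    (rp n u).flatMap f = rp n (u.flatMap f) := by
  induction n with
  | zero => rfl
  | succ n ih => rw [rp_succ, flatMap_append, ih, rp_succ]

theorem idem {Q : Type} [Finite Q] (f : Q → Q) (q : Q) :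
    f^[(Nat.card Q).factorial] (f^[(Nat.card Q).factorial] q) = f^[(Nat.card Q).factorial] q := by
  have := Fintype.ofFinite Q
  have k : ∀ i j, i < j → j ≤ Nat.card Q → f^[i] q = f^[j] q →
      Function.IsPeriodicPt f (Nat.card Q).factorial (f^[(Nat.card Q).factorial] q) := fun i j a b e => by
    have : Function.IsPeriodicPt f (j - i) (f^[i] q) := by
      rw [Function.IsPeriodicPt, Function.IsFixedPt, ← Function.iterate_add_apply, Nat.sub_add_cancel a.le, e]
    have := (this.trans_dvd (Nat.dvd_factorial (n := Nat.card Q) (by omega) (by omega))).apply_iterate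
      ((Nat.card Q).factorial - i)
    rwa [← Function.iterate_add_apply, Nat.sub_add_cancel (by have := Nat.self_le_factorial (Nat.card Q); omega)]
      at this
  obtain ⟨i, j, a, e⟩ := Fintype.exists_ne_map_eq_of_card_lt (fun i : Fin (Nat.card Q + 1) => f^[i] q) (by simp)
  obtain b | b := lt_or_gt_of_ne a
  exacts [k i j b (Nat.le_of_lt_succ j.2) e, k j i b (Nat.le_of_lt_succ i.2) e.symm]

section
variable {X Y Q : Type} (g : Agsm X Y Q)

theorem out_app (q) (a b : List X) : g.out q (a ++ b) = g.out q a ++ g.out (a.foldl g.t q) b := by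
  induction a generalizing q with
  | nil => rfl
  | cons x a ih => simp [Agsm.out, ih]

theorem mem_inv {M w} : w ∈ g.inv M ↔ w.foldl g.t g.q0 ∈ g.fin ∧ g.out g.q0 w ∈ M := .rfl

theorem out_len {c : ℕ} (h : ∀ q a, (g.h q a).length ≤ c) (q) (w : List X) :
    (g.out q w).length ≤ w.length * c := by
  induction w generalizing q with
  | nil => simp [Agsm.out]
  | cons x w ih => have := h q x; have := ih (g.t q x); simp [Agsm.out, add_mul]; omega

theorem loop [Finite Q] (q) (u : List X) : ∃ q' a, ∀ n, (rp ((Nat.card Q).factorial + (Nat.card Q).factorial * n) u).foldl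
    g.t q = q' ∧ g.out q (rp ((Nat.card Q).factorial + (Nat.card Q).factorial * n) u) =
      a ++ rp n (g.out q' (rp (Nat.card Q).factorial u)) := by
  have k : ∀ n q, (rp n u).foldl g.t q = (fun q => u.foldl g.t q)^[n] q := fun n => by
    induction n with
    | zero => exact fun _ => rfl
    | succ n ih => exact fun q => by rw [rp_succ, foldl_append, ih]; rfl
  have e := idem (fun q => u.foldl g.t q) q
  rw [← k, ← k] at e
  refine ⟨(rp (Nat.card Q).factorial u).foldl g.t q, g.out q (rp (Nat.card Q).factorial u), fun n => ?_⟩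
  rw [rp_mul, foldl_append, out_app]
  generalize rp (Nat.card Q).factorial u = U at e ⊢
  generalize U.foldl g.t q = p at e ⊢
  induction n with
  | zero => exact ⟨rfl, rfl⟩
  | succ n ih => rw [rp_succ, foldl_append, out_app, e, append_cancel_left ih.2]; exact ⟨ih.1, rfl⟩

def Pair (M : Language X) (x u v w t : List X) : Prop :=
  ∀ n m, x ++ (rp n u ++ (v ++ (rp m w ++ t))) ∈ M ↔ n = m

theorem pump [Finite Q] {M x u v w t} (h : Pair (g.inv M) x u v w t) : ∃ x' v' t' q q',
    Pair M x' (g.out q (rp (Nat.card Q).factorial u)) v' (g.out q' (rp (Nat.card Q).factorial w)) t' := by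
  obtain ⟨q, a, k⟩ := loop g (x.foldl g.t g.q0) u
  obtain ⟨q', a', k'⟩ := loop g (v.foldl g.t q) w
  refine ⟨g.out g.q0 x ++ a, g.out q v ++ a', g.out q' t, q, q', fun n m => ?_⟩
  have e := h ((Nat.card Q).factorial + (Nat.card Q).factorial * n)
    ((Nat.card Q).factorial + (Nat.card Q).factorial * m)
  have e' := (h ((Nat.card Q).factorial + (Nat.card Q).factorial * n) _).2 rfl
  simp only [mem_inv, foldl_append, out_app, k, k'] at e e'
  simpa [e'.1, (Nat.factorial_pos _).ne'] using e
end

/-! ### a self-describing language -/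

abbrev S := Option Bool

abbrev G := Σ s : ℕ, Fin (s + 1) × List (Fin (s + 1) → Fin (s + 1) × List S)

def toA (g : G) : Agsm ℕ S (Fin (g.1 + 1)) :=
  ⟨g.2.1, Set.univ, fun q a => (g.2.2.getD a (fun q => (q, [])) q).1,
    fun q a => (g.2.2.getD a (fun q => (q, [])) q).2⟩

theorem ex_e : ∃ e : G × ℕ → ℕ, e.Injective ∧ ∀ g, ∃ c, (∀ q a, ((toA g).h q a).length ≤ c) ∧
    ∀ a, (g.1 + 1).factorial * c ≤ e (g, a) := by
  obtain ⟨e, he⟩ := exists_injective_nat (G × ℕ)
  have : ∀ g : G, ∃ c, ∀ q a, ((toA g).h q a).length ≤ c := fun g => by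
    obtain ⟨c, hc⟩ := (Set.finite_range fun x : _ × Fin g.2.2.length => ((toA g).h x.1 x.2).length).bddAbove
    refine ⟨c, fun q a => ?_⟩
    obtain b | b := lt_or_ge a g.2.2.length
    exacts [hc ⟨(q, ⟨a, b⟩), rfl⟩, by simp [toA, getElem?_eq_none b]]
  choose c hc using this
  exact ⟨fun x => Nat.pair (e x) ((x.1.1 + 1).factorial * c x.1), fun _ _ a => he (Nat.pair_eq_pair.1 a).1,
    fun g => ⟨c g, hc g, fun a => Nat.right_le_pair ..⟩⟩

noncomputable def cd (g : G) (a : ℕ) : List S := none :: replicate (ex_e.choose (g, a) + 2).factorial (some true)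

inductive L0 (U : Set ℕ) : List S → Prop
  | nil : L0 U []
  | un {n} : n + 1 ∈ U → L0 U (replicate (n + 1) (some false))
  | code {g} {ω : List ℕ} : L0 U ((toA g).out g.2.1 ω) → L0 U (ω.flatMap (cd g))

theorem hd (g) (ω : List ℕ) : ω.flatMap (cd g) = [] ∨ ∃ r, ω.flatMap (cd g) = none :: r := by
  cases ω
  exacts [.inl rfl, .inr ⟨_, rfl⟩]

theorem cut {g} : ∀ {ω : List ℕ} {p r}, ω.flatMap (cd g) = p ++ none :: r →
    ∃ ω₁ ω₂, ω = ω₁ ++ ω₂ ∧ ω₁.flatMap (cd g) = p ∧ ω₂.flatMap (cd g) = none :: r
  | ω, [], _, h => ⟨[], ω, rfl, rfl, h⟩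
  | [], _ :: _, _, h => by cases h
  | a :: ω, _ :: p, r, h => by
    obtain ⟨rfl, h'⟩ := cons.inj h
    obtain ⟨c, rfl, e⟩ | ⟨_ | ⟨_, c⟩, e, e'⟩ := append_eq_append_iff.1 h'
    · obtain ⟨ω₁, ω₂, rfl, rfl, b⟩ := cut e
      exact ⟨a :: ω₁, ω₂, rfl, rfl, b⟩
    · exact ⟨[a], ω, rfl, by simpa [cd] using e, e'.symm⟩
    · have := e ▸ mem_append_right p mem_cons_self
      simp [← (cons.inj e').1] at this

theorem dec {g g'} : ∀ {ω ω' : List ℕ}, ω.flatMap (cd g) = ω'.flatMap (cd g') →
    ω = ω' ∧ (ω = [] ∨ g = g')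
  | [], [], _ => ⟨rfl, .inl rfl⟩
  | [], _ :: _, h | _ :: _, [], h => by cases h
  | a :: ω, b :: ω', h => by
    have k : ∀ g (ω : List ℕ) n, (replicate n (some true) ++ ω.flatMap (cd g)).takeWhile (· = some true) =
        replicate n (some true) := fun g ω n => by
      obtain e | ⟨_, e⟩ := hd g ω <;> simp [e, takeWhile_append]
    have h' := (cons.inj h).2
    have e := congrArg (takeWhile (· = some true)) h'
    erw [k, k] at e
    obtain ⟨⟩ : (g, a) = (g', b) := ex_e.choose_spec.1 (Nat.add_right_cancel (m := 2)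
      ((Nat.factorial_inj (Nat.le_add_left ..)).1 (by simpa using congrArg length e)))
    exact ⟨congrArg _ (dec (append_cancel_left h')).1, .inr rfl⟩

variable {U : Set ℕ}

theorem inv_code {g} {ω : List ℕ} : L0 U (ω.flatMap (cd g)) ↔ L0 U ((toA g).out g.2.1 ω) := by
  refine ⟨fun h => ?_, .code⟩
  generalize e : ω.flatMap (cd g) = W at h
  cases h with
  | nil => obtain ⟨rfl, -⟩ := dec (g' := g) (ω' := []) e; exact .nil
  | un => obtain a | ⟨_, a⟩ := hd g ω <;> cases a.symm.trans e
  | code a =>
    obtain ⟨rfl, rfl | rfl⟩ := dec e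
    exacts [.nil, a]

theorem big {W n} (h : L0 U W) (a : replicate (n + 1) (some true) <:+: W) :
    ∃ e : ℕ, n < e.factorial ∧ e.factorial ≤ W.length := by
  cases h with
  | nil => simp at a
  | un => simpa using a.subset mem_cons_self
  | @code g ω h =>
    clear h
    induction ω with
    | nil => simp at a
    | cons b ω ih =>
      obtain c | c := infix_cons_iff.1 a
      · simp [replicate_succ] at c
      obtain c | c | ⟨l, l', c, d, e⟩ := infix_append_iff.1 c
      · exact ⟨_, by simpa using c.length_le, by simp [cd]; omega⟩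
      · obtain ⟨e, d, f⟩ := ih c
        exact ⟨e, d, by simp at f ⊢; omega⟩
      obtain rfl : l' = [] := by
        obtain _ | ⟨x, l'⟩ := l'
        · rfl
        obtain rfl : x = some true := eq_of_mem_replicate (by rw [c]; simp)
        obtain f | ⟨_, f⟩ := hd g ω <;> rw [← flatMap_def, f] at e <;> simp at e
      exact ⟨_, by simpa [← append_nil l ▸ c] using d.length_le, by simp [cd]; omega⟩

theorem mem_rp {X : Type} {n} {u : List X} {b} (h : b ∈ rp n u) : b ∈ u := by
  obtain ⟨_, a, c⟩ := mem_flatten.1 h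
  exact eq_of_mem_replicate a ▸ c

theorem np (x u v w t : List S) : ¬ Pair {W | L0 U W} x u v w t := by
  induction hN : u.length + w.length using Nat.strong_induction_on generalizing x u v w t with | _ N ih
  intro h
  have hu : u ≠ [] := by rintro rfl; cases (h 1 0).1 ((h 0 0).2 rfl)
  have hw : w ≠ [] := by rintro rfl; cases (h 0 1).1 ((h 0 0).2 rfl)
  have lu := length_pos_iff.2 hu
  have lw := length_pos_iff.2 hw
  have h1 : L0 U _ := (h 1 1).2 rfl
  generalize e : x ++ (rp 1 u ++ (v ++ (rp 1 w ++ t))) = W at h1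
  cases h1 with
  | nil => simp [rp, hu] at e
  | un =>
    have k : ∀ b, b ∈ u ∨ b ∈ v ∨ b ∈ w → b = some false := fun b a =>
      eq_of_mem_replicate (by rw [← e]; simp [rp]; tauto)
    have k' : ∀ n m, rp n u ++ (v ++ rp m w) = replicate (n * u.length + (v.length + m * w.length)) (some false) :=
      fun n m => eq_replicate_iff.2 ⟨by simp [rp_len], fun b a => k b (by
        simp only [mem_append] at a; exact a.imp mem_rp (Or.imp_right mem_rp))⟩
    have := (h (u.length + w.length) 0).1 (by
      have := (h u.length _).2 rfl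
      rw [← append_assoc v, ← append_assoc (rp _ _), k'] at this ⊢
      rwa [show (u.length + w.length) * u.length + (v.length + 0 * w.length) =
        u.length * u.length + (v.length + u.length * w.length) by ring])
    omega
  | @code g ω h1 =>
    have k : ∀ s, s = u ∨ s = w → none ∈ s := fun s a => by_contra fun b => by
      have c : s = replicate s.length (some true) := eq_replicate_iff.2 ⟨rfl, fun x d => by
        obtain ⟨_, -, f⟩ := mem_flatMap.1 (e ▸ by obtain rfl | rfl := a <;> simp [rp, d] : x ∈ ω.flatMap (cd g))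
        exact (mem_cons.1 f).elim (fun f => (b (f ▸ d)).elim) eq_of_mem_replicate⟩
      have ls : 0 < s.length := by obtain rfl | rfl := a <;> assumption
      let E := x.length + v.length + t.length + 2 * (u.length + w.length)
      obtain ⟨j, d, f⟩ := big (n := E.factorial) ((h (E.factorial + 1) _).2 rfl) (IsInfix.trans (l₂ := rp (E.factorial + 1) s)
        (by
          rw [c, rp, flatten_replicate_replicate]
          exact (prefix_replicate_iff.2 ⟨by simp; nlinarith, by simp⟩).isInfix)
        (by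
          obtain rfl | rfl := a
          exacts [⟨_, _, append_assoc ..⟩, ⟨x ++ (rp (E.factorial + 1) u ++ v), t, by simp⟩]))
      have := Nat.factorial_le (show E + 1 ≤ j from lt_of_not_ge fun q => d.not_ge (Nat.factorial_le q))
      have p := Nat.factorial_pos E
      simp only [length_append, rp_len, Nat.factorial_succ] at this f
      generalize E.factorial = F at *
      simp only [E] at this
      nlinarith [Nat.mul_le_mul_left (x.length + v.length + t.length + (u.length + w.length)) p,
        Nat.zero_le (F * (u.length + w.length))]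
    obtain ⟨u₁, u₂, rfl⟩ := append_of_mem (k u (.inl rfl))
    obtain ⟨w₁, w₂, rfl⟩ := append_of_mem (k w (.inr rfl))
    have h' : Pair {W | L0 U W} (x ++ u₁) (none :: u₂ ++ u₁) (none :: u₂ ++ (v ++ w₁)) (none :: w₂ ++ w₁)
        (none :: w₂ ++ t) := fun n m => by simpa [rp_conj] using h (n + 1) (m + 1)
    clear e h1 k g ω
    have h1 : L0 U _ := (h' 1 1).2 rfl
    generalize e : x ++ u₁ ++ (rp 1 (none :: u₂ ++ u₁) ++ (none :: u₂ ++ (v ++ w₁) ++ (rp 1 (none :: w₂ ++ w₁) ++
      (none :: w₂ ++ t)))) = W at h1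
    cases h1 with
    | nil => simp at e
    | un => cases (eq_of_mem_replicate (by rw [← e]; simp) : (none : S) = some false)
    | @code g ω h1 =>
      simp only [rp, replicate_one, flatten_singleton] at e
      obtain ⟨ω₁, _, rfl, a1, e1⟩ := cut e.symm
      obtain ⟨ω₂, _, rfl, a2, e2⟩ := cut (p := none :: u₂ ++ u₁) e1
      obtain ⟨ω₃, _, rfl, a3, e3⟩ := cut (p := none :: u₂ ++ (v ++ w₁)) e2
      obtain ⟨ω₄, ω₅, rfl, a4, a5⟩ := cut (p := none :: w₂ ++ w₁) e3
      obtain ⟨x', v', t', q, q', b⟩ := pump (toA g) (M := {W | L0 U W}) (x := ω₁) (u := ω₂) (v := ω₃) (w := ω₄)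
        (t := ω₅) fun n m => by
          rw [← h' n m, ← a1, ← a2, ← a3, ← a4, show none :: w₂ ++ t = _ from a5.symm]
          simp only [← rp_flat, ← flatMap_append]
          exact (and_iff_right trivial).trans inv_code.symm
      obtain ⟨c, c1, c2⟩ := ex_e.choose_spec.2 g
      have k : ∀ (ω : List ℕ) q, ((toA g).out q (rp (Nat.card (Fin (g.1 + 1))).factorial ω)).length + ω.length ≤
          (ω.flatMap (cd g)).length := fun ω q => by
        refine (Nat.add_le_add_right (out_len _ c1 q _) _).trans ?_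
        rw [rp_len, Nat.card_fin]
        induction ω with
        | nil => simp
        | cons a ω ih =>
          have := (c2 a).trans ((Nat.le_add_right _ 2).trans (Nat.self_le_factorial _))
          simp only [flatMap_cons, length_append, length_cons, cd, length_replicate] at ih ⊢
          nlinarith
      refine ih _ ?_ _ _ _ _ _ rfl b
      have := k ω₂ q
      have := k ω₄ q'
      have : 0 < ω₂.length := length_pos_iff.2 (by rintro rfl; cases a2)
      simp only [a2, a4, length_append, length_cons] at *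
      omega

theorem nf {Z X : Type} [Finite Z] {L : Language Z} {M} (h : GenA L X M) :
    Finite X ∧ ∃ (Q : Type) (_ : Finite Q) (g : Agsm X Z Q), M = g.inv L := by
  induction h with
  | base =>
    let g : Agsm Z Z Unit := ⟨(), Set.univ, fun _ _ => (), fun _ a => [a]⟩
    have : ∀ w, g.out () w = w := fun w => by induction w <;> simp [Agsm.out, g, *]
    exact ⟨inferInstance, Unit, inferInstance, g, Language.ext fun w => by simp [mem_inv, g, this]⟩
  | @inv X Y Q _ _ g _ _ ih =>
    obtain ⟨-, Q', _, g', rfl⟩ := ih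
    let f : Agsm X Z (Q × Q') := ⟨(g.q0, g'.q0), g.fin ×ˢ g'.fin, fun q a => (g.t q.1 a, (g.h q.1 a).foldl g'.t q.2),
      fun q a => g'.out q.2 (g.h q.1 a)⟩
    have : ∀ w q q', foldl f.t (q, q') w = (foldl g.t q w, foldl g'.t q' (g.out q w)) ∧
        f.out (q, q') w = g'.out q' (g.out q w) := fun w => by
      induction w with
      | nil => exact fun _ _ => ⟨rfl, rfl⟩
      | cons a w ih => exact fun q q' => ⟨by simpa [Agsm.out] using (ih _ _).1, by
          rw [Agsm.out, Agsm.out, out_app, (ih _ _).2]⟩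
    exact ⟨inferInstance, _, inferInstance, f, Language.ext fun w => by
      simp only [mem_inv, show f.q0 = (g.q0, g'.q0) from rfl, this]; exact and_assoc.symm⟩

theorem toC {X : Type} {M} (h : GenA {W | L0 U W} X M) : GenC {W | L0 U W} X M := by
  obtain ⟨_, Q, _, g, rfl⟩ := nf h
  obtain ⟨k, ⟨e⟩⟩ := Finite.exists_equiv_fin X
  obtain ⟨_ | s, ⟨e'⟩⟩ := Finite.exists_equiv_fin Q
  · exact (e' g.q0).elim0
  let g' : G := ⟨s, e' g.q0, ofFn fun i q => (e' (g.t (e'.symm q) (e.symm i)), g.h (e'.symm q) (e.symm i))⟩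
  have k : ∀ w q, (toA g').out (e' q) (map (fun a => (e a).val) w) = g.out q w := fun w => by
    induction w with
    | nil => exact fun _ => rfl
    | cons a w ih => intro q; rw [map_cons, Agsm.out, Agsm.out, ← ih]; simp [toA, g']
  have := Fintype.ofFinite Q
  refine (Language.ext fun w => ?_ : _ = g.inv _) ▸ GenC.reg (R := (DFA.mk g.t g.q0 g.fin).accepts)
    ⟨Q, this, _, rfl⟩ (.hom (fun a => cd g' (e a)) .base)
  rw [mem_inv, ← k, and_comm]
  exact and_congr_left fun _ => (by rw [flatMap_map]; rfl : _ ↔ L0 U (flatMap (cd g') _)).trans inv_code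

theorem notT : Pair (T {[(), ()]}) [z, y', .inl ()] [y] [z] [y'] [.inl ()] := by
  have r : ∀ n (a : Ex Unit), rp n [a] = replicate n a := fun n a => by simp [rp]
  have tw : ∀ (p : Ex Unit → Bool) a b x, x ∈ a → p x = false → takeWhile p (a ++ b) = takeWhile p a :=
    fun p a b x c d => by
      induction a with
      | nil => cases c
      | cons x' a ih =>
        by_cases e : p x'
        · simp [e, ih ((mem_cons.1 c).resolve_left fun f => by simp [← f, d] at e)]
        · simp [e]
  have k : ∀ i (w : List (Ex Unit)), V i w → (i = 3 → ∃ r, w = y' :: r) ∧ (i ≠ 3 → (i ≠ 0 → z ∈ w) ∧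
      (w.takeWhile (· = y)).length = (w.reverse.takeWhile (· ≠ z)).countP (· = y')) := fun i w h => by
    induction h with
    | v01 _ ih => simpa using (ih.2 (by decide)).2
    | v0e => simp
    | @v12 w _ ih =>
      obtain ⟨a, b⟩ := ih.2 (by decide)
      simp at b
      simp [a, tw _ w _ z (a (by decide)), tw _ w.reverse _ z (mem_reverse.2 (a (by decide))), b]
    | v13 _ ih => obtain ⟨_, rfl⟩ := ih.1 rfl; simp
    | v1z => simp
    | @v2x w x c d _ ih =>
      obtain ⟨a, b⟩ := ih.2 (by decide)
      simp at b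
      simp [a, tw _ w _ z (a (by decide)), b, c, d]
    | v21 _ ih => simpa using ih.2 (by decide)
    | v3x _ _ _ ih => obtain ⟨_, rfl⟩ := ih.1 rfl; simp
    | v3y => simp
  have k' : ∀ n, V 1 (replicate n y ++ z :: replicate n y' : List (Ex Unit)) := fun n => by
    induction n with
    | zero => exact .v1z
    | succ n ih => simpa [replicate_succ' (a := y'), replicate_succ (a := y)] using V.v12 (.v21 ih)
  intro n m
  rw [r, r]
  constructor
  · rintro ⟨_, rfl, _, ⟨_, rfl, _, ⟨_, ⟨_, rfl, α, a, rfl⟩, _, rfl, rfl⟩, rfl⟩, β, -, e⟩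
    have e' : α ++ .inl () :: β = (replicate n y ++ z :: replicate m y') ++ [.inl ()] := by simpa using e
    obtain rfl : α = replicate n y ++ z :: replicate m y' := by
      obtain ⟨_ | ⟨_, c⟩, e1, e2⟩ | ⟨_ | ⟨_, c⟩, e1, e2⟩ := append_eq_append_iff.1 e'
      · simpa using e1.symm
      · have := e1 ▸ mem_append_right α mem_cons_self
        simp [← (cons.inj e2).1] at this
      · simpa using e1
      · simp at e2
    simpa [takeWhile_append, countP_replicate] using ((k _ _ a).2 (by decide)).2
  · rintro rfl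
    exact ⟨_, rfl, _, ⟨_, rfl, _, ⟨_, ⟨_, rfl, _, .v01 (k' n), rfl⟩, _, rfl, rfl⟩, rfl⟩, [],
      .inr (Language.nil_mem_kstar _), by simp⟩

theorem result (U : Set ℕ) : ∃ F : Fam, ({w | w.length ∈ U} : Language Unit) ∈ F Unit ∧
    PrincA F ∧ PrincC F ∧ ¬ ClosedT F := by
  have tr : ∀ {X M M'}, M = M' → GenA {W | L0 U W} X M → GenA {W | L0 U W} X M' := fun e h => e ▸ h
  refine ⟨fun X => {M | GenA {W | L0 U W} X M}, ?_, ⟨fun X Y Q _ _ _ g M h => .inv g h, S, inferInstance, _, .base,
    fun _ _ => id⟩, ⟨fun X Y _ _ f M h => ?_, fun X _ M h R ⟨σ, _, D, e⟩ => ?_, S, inferInstance, _, .base,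
    fun _ _ => toC⟩, fun h => ?_⟩
  · let g : Agsm Unit S Bool := ⟨false, {b | b = true ∨ 0 ∈ U}, fun _ _ => true, fun _ _ => [some false]⟩
    have k : ∀ w q, g.out q w = replicate w.length (some false) ∧ foldl g.t true w = true := fun w => by
      induction w with
      | nil => exact fun _ => ⟨rfl, rfl⟩
      | cons a w ih => exact fun q => ⟨congrArg _ (ih _).1, (ih q).2⟩
    refine tr (Language.ext fun w => ?_) (GenA.inv g .base)
    rw [mem_inv, (k w _).1]
    obtain _ | ⟨a, w⟩ := w
    · exact ⟨fun a => a.1.resolve_left nofun, fun a => ⟨.inr a, .nil⟩⟩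
    refine ⟨fun ⟨_, b⟩ => ?_, fun b => ⟨.inl (k w true).2, .un b⟩⟩
    generalize e : replicate (a :: w).length (some false) = W at b
    cases b with
    | nil => cases e
    | un b => rwa [← (replicate_inj.1 e).1] at b
    | @code g ω => obtain c | ⟨_, c⟩ := hd g ω <;> cases e.trans c
  · let g : Agsm X Y Unit := ⟨(), Set.univ, fun _ _ => (), fun _ a => f a⟩
    have : ∀ w, g.out () w = w.flatMap f := fun w => by induction w <;> simp [Agsm.out, g, *]
    exact tr (Language.ext fun w => by simp [mem_inv, g, this]; rfl) (GenA.inv g h)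
  · let g : Agsm X X σ := ⟨D.start, D.accept, D.step, fun _ a => [a]⟩
    have : ∀ w q, g.out q w = w := fun w => by induction w <;> simp [Agsm.out, g, *]
    exact tr (Language.ext fun w => by rw [mem_inv, this, ← e]; exact and_comm) (GenA.inv g h)
  · let g : Agsm Unit S (Fin 4) := ⟨0, {2}, fun q _ => ![1, 2, 3, 3] q, fun _ _ => []⟩
    have k : ∀ w q, g.out q w = [] ∧ foldl g.t 3 w = 3 := fun w => by
      induction w with
      | nil => exact fun _ => ⟨rfl, rfl⟩
      | cons a w ih => exact fun q => ⟨(ih _).1, (ih q).2⟩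
    refine (nf (h Unit {[(), ()]} (tr (Language.ext fun w => ?_) (GenA.inv g .base)))).2.elim
      fun Q ⟨_, g', e⟩ => ?_
    swap
    · obtain ⟨_, _, _, _, _, a⟩ := pump g' (e ▸ notT)
      exact np _ _ _ _ _ a
    rw [mem_inv, (k w _).1]
    refine ⟨fun ⟨a, _⟩ => ?_, by rintro rfl; exact ⟨rfl, .nil⟩⟩
    obtain _ | ⟨_, _ | ⟨_, _ | ⟨_, w⟩⟩⟩ := w
    exacts [(by cases a), (by cases a), rfl, by cases (k w 0).2.symm.trans a]

end Pool.Agent.Results.MP_c9c291_lc.No
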